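import Mathlib
import Pool.Agent.Helper892.ER.Core
import Pool.Agent.Helper892.ER.Prox
import Pool.Agent.Helper892.VE.Quot

/-!
# Vojta's conjecture for curves, `D` a point, and points of degree at most `N`: the error term

`k` is any number field, `E : y² = x³ + a x + b` an elliptic curve over `k` with `a`, `b` integral,
`N ≥ 2`, `e ≥ 1`, and `X → E` is the cyclic cover `w ^ N = g`, `g = A(x) + B(x) y` with
`deg A ≤ N e - 1`, `deg B ≤ N e - 2` (integral coefficients). If `B` has degree `N e - 2` and if the
norm `A² - (x³ + a x + b) B²`, of degree `2 N e - 1`, has no multiple roots, then `X` is smooth of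
genus `N (N - 1) e + 1`, it is totally ramified over the `2 N e - 1` zeros of `g` and over the origin
of `E`, and `K_X` is `N - 1` times the pull-back of `2 e O`, so that `h_{K_X}(P) = (N - 1) e h(x)`
up to a bounded function. Let `D` be the point of `X` over the origin. The function `x` on `X` has
a pole of order `2 N` at `D` and no other poles, so that `log⁺ |x|_w / (2 N)` is a local height of
`D`. `S` consists of the archimedean places and finitely many primes, one of them a prime `p` at which
`E` has good reduction, not above `2`.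

In Vojta's inequality `h_K(P) + m_S(D, P) ≤ d_k(P) + ε h_A(P) + O(1)` for the points `P` of degree at
most `N` of `X`, how small can the error term be chosen? The theorem says: if `E(k)` has rank at
least `r`, then there are infinitely many points `P` of degree at most `N` on `X` with
`h_K(P) + m_S(D, P) ≥ d_k(P) + (r / 2) log h_K(P) - O(1)`. So the error term cannot be
`κ log h_K(P) + O(1)` if `κ < r / 2`; the rank of `E` over the finite extensions of `k` is unbounded.

Proof. By the pigeonhole principle there are points `Q` in `E(k)` with `h(x(Q)) ≤ T` whose distance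
from the origin at `p` is at most `O(T ^ (- r / 2))`. As `X → E` is totally ramified over the origin,
`p` contributes `(1 - 1 / N) (r / 2) log T` to the height `h_K(P)` for `P` over `Q` and
`(1 / N) (r / 2) log T` to `m_S(D, P)`, but only `O(1)` to `d_k(P)`.
-/

set_option autoImplicit false

open NumberField IsDedekindDomain Polynomial

namespace Pool.Agent.Results.MP_71c16a_nt.ErrorTermRank

variable (k : Type) [Field k] [NumberField k]

/-- The height, relative to `k`, of the point `x` of the line over `L ⊇ k`. -/
noncomputable def height {L : Type} [Field L] [NumberField L] [Algebra k L] (x : L) : ℝ :=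
  Height.logHeight₁ x / Module.finrank k L

/-- The logarithmic discriminant `d_k(L) = log |disc L| / [L : k] - log |disc k|`. -/
noncomputable def logDisc (L : Type) [Field L] [NumberField L] [Algebra k L] : ℝ :=
  Real.log |(discr L : ℝ)| / Module.finrank k L - Real.log |(discr k : ℝ)|

variable {k}

/-- The primes of `L` above the primes in `S`. -/
def primesAbove (S : Finset (HeightOneSpectrum (𝓞 k))) (L : Type) [Field L] [NumberField L]
    [Algebra k L] : Set (HeightOneSpectrum (𝓞 L)) :=
  {w | ∃ v ∈ S, w.asIdeal.LiesOver v.asIdeal}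

/-- The proximity function `∑_{ν ∈ S} λ_D(P, ν)` relative to `k`, where `S` consists of the
archimedean places of `k` and the primes in `S`, of the point `D` at infinity of `X`: the sum of the
local heights `log⁺ |x|_w / (2 N)` over the infinite places `w` of `L` (with the factor `[L_w : ℝ]`)
and over the primes of `L` above the primes in `S` (with the absolute value `N(w) ^ (- ord_w)`),
divided by `[L : k]`. -/
noncomputable def proximity (N : ℕ) (S : Finset (HeightOneSpectrum (𝓞 k))) {L : Type} [Field L]
    [NumberField L] [Algebra k L] (x : L) : ℝ :=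
  (∑ w : InfinitePlace L, (w.mult : ℝ) * (Real.posLog (w x) / (2 * N)) +
    ∑ᶠ w ∈ primesAbove S L, Real.posLog (FinitePlace.mk w x) / (2 * N)) / Module.finrank k L

/-- The curve `E : y² = x³ + a x + b`. -/
def ellipticCurve (a b : 𝓞 k) : WeierstrassCurve k := ⟨0, 0, 0, a, b⟩

/-- `(x, y, w)` is a point over `L` of the affine part `X ∖ D` of the curve `X`, that is
`y² = x³ + a x + b`, `w ^ N = A(x) + B(x) y`. -/
def OnCurve {L : Type} [Field L] [Algebra k L] (N : ℕ) (a b : 𝓞 k) (A B : (𝓞 k)[X]) (x y w : L) :
    Prop :=
  y ^ 2 = x ^ 3 + algebraMap k L a * x + algebraMap k L b ∧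
  w ^ N = aeval x (A.map (algebraMap (𝓞 k) k)) + aeval x (B.map (algebraMap (𝓞 k) k)) * y

lemma norm_ne {a b : 𝓞 k} {A B : (𝓞 k)[X]} (hAB : A ≠ 0 ∨ B ≠ 0) :
    A ^ 2 ≠ (X ^ 3 + C a * X + C b) * B ^ 2 := by
  intro h
  have hcub : (X ^ 3 + C a * X + C b : (𝓞 k)[X]).natDegree = 3 := by compute_degree!
  have hcub0 : (X ^ 3 + C a * X + C b : (𝓞 k)[X]) ≠ 0 := by
    intro h0
    rw [h0, natDegree_zero] at hcub
    omega
  by_cases hB : B = 0
  · rw [hB, zero_pow two_ne_zero, mul_zero] at h
    exact hAB.elim (fun h1 => h1 (pow_eq_zero_iff two_ne_zero |>.1 h)) (fun h1 => h1 hB)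
  · have h1 := congrArg natDegree h
    rw [natDegree_mul hcub0 (pow_ne_zero _ hB), natDegree_pow, natDegree_pow, hcub] at h1
    omega

/-- **Vojta's conjecture for curves, `D` a point, and the points of degree at most `N`: the error
term.** Let `E : y² = x³ + a x + b` be an elliptic curve over the number field `k` and `X` the cyclic
cover `w ^ N = A(x) + B(x) y` of degree `N ≥ 2` of `E`, with `deg A ≤ N e - 1`, `deg B ≤ N e - 2`,
`(A, B) ≠ (0, 0)`. Let `S` contain a prime `p` which does not divide `2 (4 a³ + 27 b²)`. If `E(k)`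
contains `r ≥ 1` independent points, then for some `c` there are closed points `P` of degree at most
`N` on `X`, of arbitrarily large height, with
`h_K(P) + m_S(D, P) ≥ d_k(P) + (r / 2) log h_K(P) - c`, where `h_K(P) = (N - 1) e h(x)`. -/
theorem result (S : Finset (HeightOneSpectrum (𝓞 k))) (N e : ℕ) (hN : 2 ≤ N) (he : 1 ≤ e)
    (a b : 𝓞 k) (p : HeightOneSpectrum (𝓞 k)) (hpS : p ∈ S)
    (hp : 2 * (4 * a ^ 3 + 27 * b ^ 2) ∉ p.asIdeal)
    (A B : (𝓞 k)[X]) (hA : A.natDegree ≤ N * e - 1) (hB : B.natDegree ≤ N * e - 2)
    (hAB : A ≠ 0 ∨ B ≠ 0) [DecidableEq k] (r : ℕ) (hr : 1 ≤ r)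
    (P : Fin r → (ellipticCurve a b).toAffine.Point) (hP : LinearIndependent ℤ P) :
    ∃ c : ℝ, ∀ T : ℝ, ∃ (L : Type) (_ : Field L) (_ : NumberField L) (_ : Algebra k L)
      (x y w : L), OnCurve N a b A B x y w ∧ IntermediateField.adjoin k {x, y, w} = ⊤ ∧
      Module.finrank k L ≤ N ∧ T < height k x ∧
      logDisc k L + r / 2 * Real.log ((N - 1) * e * height k x) - c ≤
        (N - 1) * e * height k x + proximity N S x := by
  have hNr : (2 : ℝ) ≤ N := by exact_mod_cast hN
  have her : (1 : ℝ) ≤ e := by exact_mod_cast he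
  obtain ⟨c, hc⟩ := Pool.Agent.Helper892.ER.core p a b hp A B (N := N) (e := e) (by omega)
    (by nlinarith) hA hB (norm_ne hAB) hr P hP
  refine ⟨2 * c + r / 2 * Real.log ((N - 1) * e), fun T => ?_⟩
  obtain ⟨x, y, L, iF, iN, iA, w, hxy, hw, htop, hdeg, hT, hav, h1, h2⟩ := hc (max T 0)
  have hT1 := (le_max_left T 0).trans_lt hT
  have hT2 := (le_max_right T 0).trans_lt hT
  have e1 : height k (algebraMap k L x) = Height.logHeight₁ x :=
    Pool.Agent.Helper892.VE.lH_eq L x
  refine ⟨L, iF, iN, iA, algebraMap k L x, algebraMap k L y, w, ⟨?_, ?_⟩, ?_, hdeg, ?_, ?_⟩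
  · rw [← map_pow, hxy, map_add, map_add, map_mul, map_pow]
  · rw [hw]
    simp only [aeval_algebraMap_apply, map_add, map_mul]
    have e2 : ∀ Φ : (𝓞 k)[X], aeval x (Φ.map (algebraMap (𝓞 k) k)) = aeval x Φ := fun Φ => by
      rw [aeval_map_algebraMap]
    rw [e2, e2]
  · rw [eq_top_iff, ← htop]
    apply IntermediateField.adjoin.mono
    intro t ht
    rw [Set.mem_singleton_iff] at ht
    rw [ht]
    simp
  · rw [e1]
    exact hT1
  · rw [e1]
    have e3 : logDisc k L = Pool.Agent.Helper892.VE.lD k L := rfl
    have h0 : (0 : ℝ) < (N - 1) * e := mul_pos (by linarith) (by linarith)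
    rw [e3, Real.log_mul h0.ne' hT2.ne']
    -- the proximity function
    have h4 : Real.log (Pool.Agent.Helper892.ER.av p x) / (2 * N) ≤
        proximity N S (algebraMap k L x) := by
      have hkL : (0 : ℝ) < Module.finrank k L := by exact_mod_cast Module.finrank_pos
      have h5 := Pool.Agent.Helper892.ER.prox_ge hpS L x
      have h6 : ∑ᶠ w ∈ primesAbove S L, Real.posLog (FinitePlace.mk w (algebraMap k L x)) / (2 * N) =
          (∑ᶠ w ∈ primesAbove S L, Real.posLog (FinitePlace.mk w (algebraMap k L x))) / (2 * N) := by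
        have hfin := Pool.Agent.Helper892.ER.above_finite S L
        have hfin' : (primesAbove S L).Finite := hfin
        rw [finsum_mem_eq_finite_toFinset_sum _ hfin', finsum_mem_eq_finite_toFinset_sum _ hfin',
          Finset.sum_div]
      have h7 : Real.posLog (Pool.Agent.Helper892.ER.av p x) =
          Real.log (Pool.Agent.Helper892.ER.av p x) := Real.posLog_eq_log (by
        rw [abs_of_pos (by linarith)]
        exact hav.le)
      have h8 : 0 ≤ ∑ w : InfinitePlace L,
          (w.mult : ℝ) * (Real.posLog (w (algebraMap k L x)) / (2 * N)) :=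
        Finset.sum_nonneg fun w _ => by
          have := Real.posLog_nonneg (x := w (algebraMap k L x))
          positivity
      unfold proximity
      rw [h6, le_div_iff₀ hkL]
      have h9 : Real.log (Pool.Agent.Helper892.ER.av p x) / (2 * N) * Module.finrank k L ≤
          (∑ᶠ w ∈ primesAbove S L, Real.posLog (FinitePlace.mk w (algebraMap k L x))) / (2 * N) := by
        rw [h7] at h5
        rw [div_mul_eq_mul_div]
        refine div_le_div_of_nonneg_right ?_ (by positivity)
        rw [mul_comm]
        exact h5
      linarith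
    have h10 : (N - 1 : ℝ) / N * (Real.log (Pool.Agent.Helper892.ER.av p x) / 2) +
        Real.log (Pool.Agent.Helper892.ER.av p x) / (2 * N) =
        Real.log (Pool.Agent.Helper892.ER.av p x) / 2 := by
      field_simp
      ring
    linarith

end Pool.Agent.Results.MP_71c16a_nt.ErrorTermRank
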