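import Mathlib
import Pool.Agent.Helper892.EC.Plc

/-!
# Vojta's inequality on every curve: the error term depends on `S`

Let `X` be a smooth projective curve over a number field `k`, `t : X → ℙ¹` a finite map of degree `N`
over `ℚ` (that is, `N` is `[k : ℚ]` times the degree over `ℙ¹_k`), unramified over `0` and `∞` and
ramified over `1`, and `D = t^*(0) + t^*(∞)`, a reduced divisor. Every curve has such maps: for
instance `t = μ(f ^ 2)`, where `f` is any nonconstant function and `μ` a suitable Moebius
transformation with `μ(0) = 1`.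

The data: `A` is the ring of the functions on `X` with poles only over `∞`. The sheaf `t_* O_X` is a
direct sum of line bundles `O(-e_i)`; this gives a basis `v_i` of `A` over `ℚ[t]` such that the
functions with poles of order at most `n` over `∞` are the sums `∑ f_i v_i` with `deg f_i + e_i ≤ n`.
In particular `deg f_l + e_l ≤ e_i + e_j` for the coefficients of `v_i v_j`. By Riemann-Roch
`2 ∑ e_i - 2 N = deg K_X` (over `ℚ`), and the fibres `A / (t - c)` are reduced for all but finitely
many `c`. The points over `1` with ramification indices `r_P` give `ν = ∑ ⌊r_P / 2⌋ deg P > 0`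
linearly independent elements of `A / (t - 1)` with square zero (the elements which vanish to order at
least `r_P / 2` at every `P`). Finally a height `H = h_{K_X}` satisfies
`∑_{P over c} [ℚ(P) : ℚ] H(P) = deg (K_X) h(c) + O(1)`,
because the left side is a height for the divisor `t_* (K_X)` of the line. (We need only `≥`.)

All heights are relative to `ℚ` here; relative to `k` everything is multiplied by `[k : ℚ]`, and
`S` consists of all places of `k` above `∞` and above the primes in `T`.

The theorem: there are points `P` of degree at most `N` (over `ℚ`) and arbitrarily large height with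
`h_{K_X}(P) + ∑_{v ∈ S} λ_D(P, v) - d(P) ≥ (ν / N) |T| log h(t(P)) - C`, where `h(t(P))` is a height for
the ample divisor `t^*(∞)`. So on every curve the term `ε h_A(x)` in the conjecture cannot be
replaced by `q log h_A(x)` with `q` independent of `S`, for suitable `D` and `r`.

Proof. By the pigeonhole principle there are coprime `a > b`, products of powers of the primes in `T`
with exponents at most `M`, which are congruent modulo `p ^ m`, where `p` is a prime outside `T` and
`m log p` is about `|T| log M`. We take `t = a / b`, a unit outside `T`, so that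
`∑_{v ∈ S} λ_D(P, v) = 2 h(t)`. The elements `b ^ (e_i) v_i(P)` of `∏ ℚ(P)` (the product over all
points `P` over `t`) are integral up to a bounded denominator and their conjugates are
`O(a ^ (e_i))`; therefore `∑ log |disc ℚ(P)| ≤ 2 (∑ e_i) h(t) + O(1)`. But the fibre over `t` is
close, at the prime `p`, to the fibre over `1`: the squares of `ν` elements of the lattice are
divisible by `p ^ m`, so these elements are divisible by `p ^ (m / 2)` in the rings of integers, and
`∑ log |disc ℚ(P)|` is smaller than this bound by `ν m log p`.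
-/

set_option autoImplicit false

open NumberField Polynomial IsDedekindDomain

namespace Pool.Agent.Results.MP_71c16a_nt.EveryCurvePlaces

/-- The ideal of the fibre of `Spec A` over the rational point `c` of the line. -/
noncomputable def fibreIdeal (A : Type) [CommRing A] [Algebra ℚ[X] A] (c : ℚ) : Ideal A :=
  Ideal.span {algebraMap ℚ[X] A (X - C c)}

/-- The closed points of `Spec A` over the rational point `c` of the line. -/
def fibre (A : Type) [CommRing A] [Algebra ℚ[X] A] (c : ℚ) : Set (Ideal A) :=
  {P | P.IsMaximal ∧ algebraMap ℚ[X] A (X - C c) ∈ P}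

section

variable {L : Type} [Field L] [NumberField L]

/-- The logarithmic discriminant `d(L) = log |disc L| / [L : ℚ]`. -/
noncomputable def logDisc (L : Type) [Field L] [NumberField L] : ℝ :=
  Real.log |(discr L : ℝ)| / Module.finrank ℚ L

/-- The primes of `L` above the primes in `T`. -/
def primesAbove (T : Finset ℕ) (L : Type) [Field L] [NumberField L] :
    Set (HeightOneSpectrum (𝓞 L)) :=
  {q | ∃ p ∈ T, ((p : ℕ) : 𝓞 L) ∈ q.asIdeal}

/-- The proximity function `∑_{v ∈ S} λ_D(P, v)`, `S = {∞} ∪ T`, `D = t^*(0) + t^*(∞)`, of a point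
over `L` with `t = t(P)`: the sum of the local heights `log⁺ |t|_v + log⁺ |1 / t|_v` over the infinite
places `v` of `L` (with the factor `[L_v : ℝ]`) and the primes of `L` above `T` (with the absolute
value `|t|_q = N(q) ^ (- ord_q t)`), divided by `[L : ℚ]`. -/
noncomputable def proximity (T : Finset ℕ) (t : L) : ℝ :=
  (∑ v : InfinitePlace L, (v.mult : ℝ) * (Real.posLog (v t) + Real.posLog (v t⁻¹)) +
    ∑ᶠ q ∈ primesAbove T L, (Real.posLog (HeightOneSpectrum.adicAbv L q t) +
      Real.posLog (HeightOneSpectrum.adicAbv L q t⁻¹))) / Module.finrank ℚ L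

end

/-- **Vojta's inequality on every curve: the error term depends on `S`.** Let `A` be a
`ℚ[t]`-algebra with a basis `v_1, …, v_N` over `ℚ[t]` and let `e_1, …, e_N ≥ 0` be integers such that
`v_i v_j = ∑ f_l v_l` with `deg f_l + e_l ≤ e_i + e_j` whenever `f_l ≠ 0`. Suppose that `A / (t - c)`
is reduced for all but finitely many rational numbers `c` and that `u_1, …, u_ν ∈ A` (`ν > 0`) have
squares divisible by `t - 1` and are linearly independent modulo `t - 1`. Let `H` be a real function
on the closed points such that `∑_{P over c} [A / P : ℚ] H(P) ≥ (2 ∑ e_i - 2 N) h(c) - B` for all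
rational numbers `c`, and let `T` be a nonempty finite set of primes. There is a constant `C` such
that for every `T₀` there are a rational number `t` of height larger than `T₀` and a point `P` over
`t` with residue field `L`, `[L : ℚ] ≤ N`, such that, with `S = {∞} ∪ T`,
`H(P) + ∑_{v ∈ S} λ_D(P, v) - log |disc L| / [L : ℚ] ≥ (ν / N) |T| log h(t) - C`. -/
theorem result {A : Type} [CommRing A] [Algebra ℚ[X] A] [Algebra ℚ A] [IsScalarTower ℚ ℚ[X] A]
    {N : ℕ} (v : Module.Basis (Fin N) ℚ[X] A) (e : Fin N → ℕ)
    (hv : ∀ i j l, v.repr (v i * v j) l ≠ 0 → (v.repr (v i * v j) l).natDegree + e l ≤ e i + e j)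
    (hA : {c : ℚ | ¬ IsReduced (A ⧸ fibreIdeal A c)}.Finite)
    {ν : ℕ} (hν : 0 < ν) (u : Fin ν → A) (hu2 : ∀ i, u i ^ 2 ∈ fibreIdeal A 1)
    (hu : LinearIndependent ℚ fun i => Ideal.Quotient.mk (fibreIdeal A 1) (u i))
    (H : Ideal A → ℝ) (B : ℝ)
    (hH : ∀ c : ℚ, (2 * (∑ i, e i : ℕ) - 2 * N) * Height.logHeight₁ c - B ≤
      ∑ᶠ P ∈ fibre A c, (Module.finrank ℚ (A ⧸ P) : ℝ) * H P)
    (T : Finset ℕ) (hT : ∀ p ∈ T, p.Prime) (hT0 : T.Nonempty) :
    ∃ C : ℝ, ∀ T₀ : ℝ, ∃ t : ℚ, T₀ < Height.logHeight₁ t ∧ ∃ P ∈ fibre A t,
      ∃ (L : Type) (_ : Field L) (_ : NumberField L) (φ : A →+* L),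
        Function.Surjective φ ∧ RingHom.ker φ = P ∧ Module.finrank ℚ L ≤ N ∧
        ν / N * T.card * Real.log (Height.logHeight₁ t) - C ≤
          H P + proximity T (t : L) - logDisc L := by
  obtain ⟨C, hC⟩ := Pool.Agent.Helper892.EC.main2 v e hv hA hν u hu2 hu H B hH T hT hT0
  refine ⟨C, fun T₀ => ?_⟩
  obtain ⟨t, P, L, iF, iN, φ, hP, hφs, hφk, hdeg, hq, hT₀, h⟩ := hC T₀
  refine ⟨t, hT₀, P, hP, L, iF, iN, φ, hφs, hφk, hdeg, ?_⟩
  have hLpos : (0 : ℝ) < Module.finrank ℚ L := by exact_mod_cast Module.finrank_pos
  have hh : Height.logHeight₁ (algebraMap ℚ L t) / Module.finrank ℚ L = Height.logHeight₁ t :=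
    Pool.Agent.Helper892.VE.lH_eq L t
  have hprox : proximity T (algebraMap ℚ L t) = 2 * Height.logHeight₁ t := by
    have h1 := Pool.Agent.Helper892.ST.prox_eq hT (algebraMap ℚ L t) hq
    have h2 : proximity T (algebraMap ℚ L t) =
        2 * Height.logHeight₁ (algebraMap ℚ L t) / Module.finrank ℚ L := by
      rw [← h1]
      rfl
    rw [h2, ← hh]
    ring
  have e1 : (t : L) = algebraMap ℚ L t := (eq_ratCast _ t).symm
  rw [e1, hprox]
  exact h

end Pool.Agent.Results.MP_71c16a_nt.EveryCurvePlaces
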