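import Mathlib
import Pool.Agent.Helper892.HE.Final

/-!
# Vojta's conjecture for points of bounded degree: the error term on products of hyperelliptic curves

Let `k` be any number field and `X = C_1 × … × C_n`, `n ≥ 1`, a product of arbitrary hyperelliptic
curves `C_i : y² = f_i(x)` of genus `g_i ≥ 2` over `k`, where `f_i` has no multiple roots and degree
`2 g_i + 1` (every hyperelliptic curve has such an equation over a finite extension of its field of
definition). `K_X` is ample and `h_K(P) = ∑ i, (g_i - 1) h(x_i)` up to a bounded function. We consider
the points `P = (x_i, y_i)` of `X` of degree at most `2 ^ n`, `D = 0` (for effective `D` the left hand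
side of Vojta's inequality gets larger, up to `O(1)`).

The theorem: for every real `q` there is a finite extension `K` of `k` such that over `K` the error term
`ε h_A(P)` in `h_K(P) ≤ d_K(P) + ε h_A(P) + O(1)` cannot be replaced by `q log h_A(P)`, whatever the
exceptional set `Z` is: the points `P` of degree at most `2 ^ n` over `K` with
`h_K(P) ≥ d_K(P) + q log h_K(P)` and `x_i` in `K`, all `h(x_i)` as large as one likes,
are Zariski dense in `X`. For `n = 1` this is a statement about the quadratic points of all
hyperelliptic curves. (For rational points Lang suggested the error term `(1 + ε) log h_A`.)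

Every Zariski-closed subset `Z ≠ X` is contained in the union of `{H(x_1, …, x_n) = 0}`, for some
polynomial `H ≠ 0`, and the points at infinity, since `P ↦ (x_1, …, x_n)` is finite.

Proof. After an affine change of the variable and over a finite extension, `f = (x³ + a x + b) G` up to a
square, with `G` of degree `2 g - 2` and a zero `c` of `G`; let `E : y² = x³ + a x + b` and
`R = (c, d)` in `E`. If `x` is the abscissa of a point of `E(K)`, then `K(√f(x)) = K(√G(x))`, so that
`d_K ≤ (g - 1) h(x) + O(1)`. If `E(K)` has rank `r`, then there are points `Q` of `E(K)` with `h(Q) ≤ t`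
whose distance from the origin at a prime `𝔭` is at most `O(t ^ (- r / 2))`. For the
points `R + Q` the value `G(x)` is divisible by a power of `𝔭` of the size `t ^ (r / 2)`, whose
square part does not contribute to the discriminant. The rank of `E` over the finite extensions of `k`
is unbounded.
-/

set_option autoImplicit false

open NumberField Polynomial

namespace Pool.Agent.Results.MP_71c16a_nt.HyperellipticErrorTerm

variable (k : Type) [Field k] [NumberField k]

/-- The height, relative to `k`, of the point `x` of the line over `L ⊇ k`. -/
noncomputable def height {L : Type} [Field L] [NumberField L] [Algebra k L] (x : L) : ℝ :=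
  Height.logHeight₁ x / Module.finrank k L

/-- The logarithmic discriminant `d_k(L) = log |disc L| / [L : k] - log |disc k|`. -/
noncomputable def logDisc (L : Type) [Field L] [NumberField L] [Algebra k L] : ℝ :=
  Real.log |(discr L : ℝ)| / Module.finrank k L - Real.log |(discr k : ℝ)|

/-- The height `∑ i, (g i - 1) h(x i)`, relative to `k`, for the canonical divisor of the product of the
curves `y² = f_i(x)` of genus `g i`. -/
noncomputable def canonicalHeight {n : ℕ} (g : Fin n → ℕ) {L : Type} [Field L] [NumberField L]
    [Algebra k L] (x : Fin n → L) : ℝ :=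
  ∑ i, ((g i : ℝ) - 1) * height k (x i)

/-- **The error term in Vojta's conjecture for points of bounded degree on products of hyperelliptic
curves.** Let `k` be a number field, `f_1, …, f_n` polynomials over `k` of degrees `2 g_i + 1`,
`g_i ≥ 2`, without multiple roots, and `X` the product of the curves `y² = f_i(x)`. For every real `q`
there is a finite extension `K` of `k` such that for every polynomial `H ≠ 0` over `K` in `n`
variables and every `T` there is a closed point `P = (x_i, y_i)` of `X` of degree at most `2 ^ n` over
`K`, with `x_i` in `K`, `H(x) ≠ 0` and `h(x_i) > T` for all `i`, such that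
`h_K(P) ≥ d_K(P) + q log h_K(P)`. -/
theorem result (n : ℕ) (hn : 1 ≤ n) (f : Fin n → k[X]) (g : Fin n → ℕ) (hg : ∀ i, 2 ≤ g i)
    (hdeg : ∀ i, (f i).natDegree = 2 * g i + 1) (hsep : ∀ i, (f i).Separable) (q : ℝ) :
    ∃ (K : Type) (_ : Field K) (_ : NumberField K) (_ : Algebra k K),
      ∀ H : MvPolynomial (Fin n) K, H ≠ 0 → ∀ T : ℝ,
        ∃ (L : Type) (_ : Field L) (_ : NumberField L) (_ : Algebra K L) (x y : Fin n → L),
          (∀ i, x i ∈ Set.range (algebraMap K L)) ∧
          (∀ i, y i ^ 2 = aeval (x i) ((f i).map (algebraMap k K))) ∧
          IntermediateField.adjoin K (Set.range x ∪ Set.range y) = ⊤ ∧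
          Module.finrank K L ≤ 2 ^ n ∧ MvPolynomial.aeval x H ≠ 0 ∧
          (∀ i, T < height K (x i)) ∧
          logDisc K L + q * Real.log (canonicalHeight K g x) ≤ canonicalHeight K g x := by
  obtain ⟨K, iF, iN, iA, h⟩ := Pool.Agent.Helper892.HE.main k n hn f (fun i => g i - 1)
    (fun i => by have := hg i; omega) (fun i => by have := hg i; rw [hdeg]; omega) hsep q
  refine ⟨K, iF, iN, iA, fun H hH T => ?_⟩
  obtain ⟨L, jF, jN, jA, x, y, h1, h2, h3, h4, h5, h6⟩ := h H hH T
  have e1 : ∀ z : K, height K (algebraMap K L z) = Height.logHeight₁ z :=
    fun z => Pool.Agent.Helper892.VE.lH_eq L z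
  have e2 : canonicalHeight K g (fun i => algebraMap K L (x i)) =
      ∑ i, ((g i - 1 : ℕ) : ℝ) * Height.logHeight₁ (x i) := by
    unfold canonicalHeight
    refine Finset.sum_congr rfl fun i _ => ?_
    rw [e1, Nat.cast_sub (by have := hg i; omega), Nat.cast_one]
  refine ⟨L, jF, jN, jA, fun i => algebraMap K L (x i), y, fun i => ⟨x i, rfl⟩, ?_, ?_, h3, ?_, ?_, ?_⟩
  · intro i
    rw [h1, aeval_algebraMap_apply]
    simp
  · rw [eq_top_iff, ← h2]
    exact IntermediateField.adjoin.mono _ _ _ Set.subset_union_right
  · have e3 : MvPolynomial.aeval (fun i => algebraMap K L (x i)) H =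
        algebraMap K L (MvPolynomial.eval x H) := by
      exact MvPolynomial.aeval_algebraMap_apply L x H
    rw [e3, Ne, map_eq_zero]
    exact h4
  · intro i
    rw [e1]
    exact h5 i
  · rw [e2]
    exact h6

end Pool.Agent.Results.MP_71c16a_nt.HyperellipticErrorTerm
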